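import Pool.Agent.Helper3.Halton.Assemble

/-!
# Discrepancy of hybrid Hammersley and lattice point sets

We prove that for every `ε > 0` and every prime `N` outside the bases there is a generating vector
`g` such that the hybrid point set built from the Hammersley point set in the bases
`b_1, …, b_s` and the lattice point set `{n g / N}` has discrepancy
`≤ C (log N)^(s+t+ε) / N`; in fact `≤ C (log N)^(s+t) (1 + |log log N|) / N`.
-/

open Finset

namespace Pool.Agent.Results.MP_dc06b6_nt.HybridPointSets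

/-- The radical inverse of `n` in base `b`: if `n = ∑ a_j b^j` with digits `a_j`, then this is
`∑ a_j b^(-j-1)`; the digit `a_j` is `n / b^j % b` (natural number division). -/
noncomputable def radicalInverse (b n : ℕ) : ℝ :=
  ∑' j : ℕ, ((n / b ^ j % b : ℕ) : ℝ) / (b : ℝ) ^ (j + 1)

/-- The `n`-th point `(n/N, φ_{b_1}(n), …, φ_{b_s}(n), {n g_1/N}, …, {n g_t/N})` of the hybrid
point set `S_N(g)`; the `1 + s + t` coordinates are indexed by `Unit ⊕ (Fin s ⊕ Fin t)`. -/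
noncomputable def hybridPoint (N : ℕ) {s t : ℕ} (b : Fin s → ℕ) (g : Fin t → ℕ) (n : ℕ) :
    Unit ⊕ (Fin s ⊕ Fin t) → ℝ
  | Sum.inl _ => (n : ℝ) / N
  | Sum.inr (Sum.inl i) => radicalInverse (b i) n
  | Sum.inr (Sum.inr j) => Int.fract ((n : ℝ) * g j / N)

open Classical in
/-- The number of `n < N` such that the point `z n` lies in the box `∏ [u_i, v_i)`. -/
noncomputable def boxCount {ι : Type} [Fintype ι] (N : ℕ) (z : ℕ → ι → ℝ) (u v : ι → ℝ) : ℕ :=
  ((range N).filter (fun n => ∀ i, u i ≤ z n i ∧ z n i < v i)).card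

/-- The boxes `∏ [u_i, v_i)` contained in `[0,1)^ι`. -/
def IsBox {ι : Type} (u v : ι → ℝ) : Prop := ∀ i, 0 ≤ u i ∧ u i ≤ v i ∧ v i ≤ 1

/-- The discrepancy `D_N` of the points `z 0, …, z (N-1)`: the supremum over all boxes
`J = ∏ [u_i, v_i)` in `[0,1)^ι` of `|#{n < N : z n ∈ J} / N - vol J|`. -/
noncomputable def discrepancy {ι : Type} [Fintype ι] (N : ℕ) (z : ℕ → ι → ℝ) : ℝ :=
  sSup {r : ℝ | ∃ u v : ι → ℝ, IsBox u v ∧ r = |(boxCount N z u v : ℝ) / N - ∏ i, (v i - u i)|}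

/-- The set in the definition of `discrepancy` is bounded above (by `1`), so that `discrepancy`
is a genuine supremum. -/
theorem local_le_one {ι : Type} [Fintype ι] (N : ℕ) (z : ℕ → ι → ℝ) (u v : ι → ℝ)
    (h : IsBox u v) : |(boxCount N z u v : ℝ) / N - ∏ i, (v i - u i)| ≤ 1 := by
  classical
  have h1 : (0 : ℝ) ≤ (boxCount N z u v : ℝ) / N := by positivity
  have h2 : (boxCount N z u v : ℝ) / N ≤ 1 := by
    apply div_le_one_of_le₀ _ (Nat.cast_nonneg _)
    have : boxCount N z u v ≤ N := by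
      unfold boxCount
      exact (Finset.card_filter_le _ _).trans (by simp)
    exact_mod_cast this
  have h3 : 0 ≤ ∏ i, (v i - u i) := Finset.prod_nonneg fun i _ => by linarith [(h i).2.1]
  have h4 : ∏ i, (v i - u i) ≤ 1 :=
    Finset.prod_le_one (fun i _ => by linarith [(h i).2.1])
      (fun i _ => by linarith [(h i).1, (h i).2.2])
  rw [abs_le]
  constructor <;> linarith

theorem bddAbove_local {ι : Type} [Fintype ι] (N : ℕ) (z : ℕ → ι → ℝ) :
    BddAbove {r : ℝ | ∃ u v : ι → ℝ, IsBox u v ∧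
      r = |(boxCount N z u v : ℝ) / N - ∏ i, (v i - u i)|} := by
  refine ⟨1, ?_⟩
  rintro r ⟨u, v, h, rfl⟩
  exact local_le_one N z u v h

lemma log_bounds {N : ℕ} (hN : 2 ≤ N) :
    (1 : ℝ) / 2 ≤ Real.log N ∧ ((Nat.log 2 N + 2 : ℕ) : ℝ) ≤ 5 * Real.log N := by
  have hN0 : (0 : ℝ) < N := by positivity
  have h1 : Real.log 2 ≤ Real.log N := Real.log_le_log (by norm_num) (by exact_mod_cast hN)
  have h2 := Real.log_two_gt_d9
  have h3 : (Nat.log 2 N : ℝ) * Real.log 2 ≤ Real.log N := by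
    have h4 : ((2 : ℝ)) ^ (Nat.log 2 N) ≤ N := by
      exact_mod_cast Nat.pow_log_le_self 2 (by omega : N ≠ 0)
    rw [← Real.log_pow]
    exact Real.log_le_log (by positivity) h4
  refine ⟨by linarith, ?_⟩
  push_cast
  nlinarith

open Pool.Agent.Helper3.Halton in
lemma bnd_le (s t : ℕ) (b : Fin s → ℕ) : ∃ C : ℝ, 0 < C ∧ ∀ N : ℕ, 2 ≤ N →
    bnd s t b (Nat.log 2 N) (Nat.clog 2 (4 * 5 ^ (t + 1) * (Nat.log 2 N + 2) ^ (s + t + 1)))
      ≤ C * (Real.log N) ^ (s + t) * (1 + |Real.log (Real.log N)|) := by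
  set B : ℝ := ∏ i, ((b i + b i : ℕ) : ℝ) with hB
  have hB0 : 0 ≤ B := Finset.prod_nonneg fun i _ => Nat.cast_nonneg _
  set C1 : ℝ := 2 + 2 * Real.log (4 * 5 ^ (t + 1)) + 4 * (s + t + 1) with hC1
  have hlog0 : 0 ≤ Real.log (4 * 5 ^ (t + 1)) := by
    apply Real.log_nonneg
    have : (1 : ℝ) ≤ 5 ^ (t + 1) := one_le_pow₀ (by norm_num)
    linarith
  have hC10 : 0 < C1 := by positivity
  set C2 : ℝ := (1 + s + t) + B + 24 * 40 ^ (t + 1) * B with hC2
  have hC20 : 0 < C2 := by positivity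
  refine ⟨C2 * 5 ^ (s + t) * C1, by positivity, ?_⟩
  intro N hN
  obtain ⟨hl1, hl2⟩ := log_bounds hN
  set J := Nat.log 2 N with hJ
  set A : ℕ := 4 * 5 ^ (t + 1) * (J + 2) ^ (s + t + 1) with hA
  set Q := Nat.clog 2 A with hQ
  set X : ℝ := ((J + 2 : ℕ) : ℝ) with hX
  set l := Real.log N with hl
  have hX1 : 1 ≤ X := by
    rw [hX]; push_cast
    linarith [Nat.cast_nonneg (α := ℝ) J]
  have hl0 : 0 < l := by linarith
  have hA1 : 1 < A := by
    rw [hA]
    have h1 : 1 ≤ 5 ^ (t + 1) := Nat.one_le_pow _ _ (by norm_num)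
    have h2 : 1 ≤ (J + 2) ^ (s + t + 1) := Nat.one_le_pow _ _ (by omega)
    have h3 := Nat.mul_le_mul h1 h2
    calc 1 < 4 * (1 * 1) := by norm_num
      _ ≤ 4 * (5 ^ (t + 1) * (J + 2) ^ (s + t + 1)) := Nat.mul_le_mul_left 4 h3
      _ = 4 * 5 ^ (t + 1) * (J + 2) ^ (s + t + 1) := by ring
  have hA0 : (0 : ℝ) < A := by positivity
  -- bound for Q
  have hQ1 : (Q : ℝ) + 1 ≤ C1 * (1 + |Real.log l|) := by
    have h1 : 2 ^ (Q - 1) < A := Nat.pow_pred_clog_lt_self (by norm_num) hA1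
    have h2 : ((Q - 1 : ℕ) : ℝ) * Real.log 2 ≤ Real.log A := by
      rw [← Real.log_pow]
      apply Real.log_le_log (by positivity)
      exact_mod_cast h1.le
    have h3 : (Q : ℝ) ≤ ((Q - 1 : ℕ) : ℝ) + 1 := by
      have : Q ≤ (Q - 1) + 1 := by omega
      exact_mod_cast this
    have h4 : Real.log A = Real.log (4 * 5 ^ (t + 1)) + (s + t + 1) * Real.log X := by
      rw [hA]
      push_cast
      rw [Real.log_mul (by positivity) (by positivity), Real.log_pow]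
      push_cast
      rw [hX]
      push_cast
      ring
    have h5 : Real.log X ≤ 2 + |Real.log l| := by
      calc Real.log X ≤ Real.log (5 * l) := Real.log_le_log (by linarith) hl2
        _ = Real.log 5 + Real.log l := Real.log_mul (by norm_num) hl0.ne'
        _ ≤ 2 + |Real.log l| := by
          have h6 : Real.log 5 ≤ 2 := by
            rw [Real.log_le_iff_le_exp (by norm_num)]
            have h7 : (2.7182818283 : ℝ) < Real.exp 1 := Real.exp_one_gt_d9
            have h8 : Real.exp 2 = Real.exp 1 * Real.exp 1 := by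
              rw [← Real.exp_add]; norm_num
            rw [h8]
            nlinarith
          exact add_le_add h6 (le_abs_self _)
    have h6 := Real.log_two_gt_d9
    have h7 : 0 ≤ Real.log A := by
      apply Real.log_nonneg
      exact_mod_cast hA1.le
    have h8 : ((Q - 1 : ℕ) : ℝ) ≤ 2 * Real.log A := by
      have h9 : (0 : ℝ) ≤ ((Q - 1 : ℕ) : ℝ) := Nat.cast_nonneg _
      nlinarith
    have h10 : (0 : ℝ) ≤ |Real.log l| := abs_nonneg _
    have h11 : ((s : ℝ) + t + 1) * Real.log X ≤ (s + t + 1) * (2 + |Real.log l|) := by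
      refine mul_le_mul_of_nonneg_left h5 (by positivity)
    have h12 : (0 : ℝ) ≤ (s : ℝ) + t + 1 := by positivity
    have h13 : 0 ≤ Real.log (4 * 5 ^ (t + 1)) * |Real.log l| := mul_nonneg hlog0 h10
    have h14 : 0 ≤ ((s : ℝ) + t + 1) * |Real.log l| := mul_nonneg h12 h10
    rw [hC1]
    nlinarith
  have hQ0 : (1 : ℝ) ≤ (Q : ℝ) + 1 := by linarith [Nat.cast_nonneg (α := ℝ) Q]
  have hXs : X ^ s ≤ X ^ (s + t) := pow_le_pow_right₀ hX1 (by omega)
  have hX1' : 1 ≤ X ^ (s + t) := one_le_pow₀ hX1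
  have hJ1 : ((J + 1 : ℕ) : ℝ) ^ t * X ^ s ≤ X ^ (s + t) := by
    rw [pow_add, mul_comm]
    refine mul_le_mul_of_nonneg_left ?_ (by positivity)
    refine pow_le_pow_left₀ (Nat.cast_nonneg _) ?_ t
    rw [hX]
    push_cast
    linarith
  unfold bnd
  have e1 : (1 + (s : ℝ) + t) + B * (X ^ s + 24 * 40 ^ (t + 1) * (Q + 1) * ((J + 1 : ℕ) : ℝ) ^ t *
      X ^ s) ≤ C2 * (X ^ (s + t) * (Q + 1)) := by
    have f1 : (1 : ℝ) ≤ X ^ (s + t) * (Q + 1) := by nlinarith
    have f2 : X ^ s ≤ X ^ (s + t) * (Q + 1) := by nlinarith [pow_nonneg (by linarith : 0 ≤ X) s]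
    have f3 : (0 : ℝ) ≤ 24 * 40 ^ (t + 1) := by positivity
    have f4 : 24 * 40 ^ (t + 1) * ((Q : ℝ) + 1) * ((J + 1 : ℕ) : ℝ) ^ t * X ^ s
        ≤ 24 * 40 ^ (t + 1) * (X ^ (s + t) * (Q + 1)) := by
      have : 24 * 40 ^ (t + 1) * ((Q : ℝ) + 1) * ((J + 1 : ℕ) : ℝ) ^ t * X ^ s
          = 24 * 40 ^ (t + 1) * ((((J + 1 : ℕ) : ℝ) ^ t * X ^ s) * (Q + 1)) := by ring
      rw [this]
      refine mul_le_mul_of_nonneg_left ?_ f3
      refine mul_le_mul_of_nonneg_right hJ1 (by linarith)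
    have f5 : (0 : ℝ) ≤ 1 + (s : ℝ) + t := by positivity
    calc (1 + (s : ℝ) + t) + B * (X ^ s + 24 * 40 ^ (t + 1) * (Q + 1) * ((J + 1 : ℕ) : ℝ) ^ t *
          X ^ s)
        ≤ (1 + (s : ℝ) + t) * (X ^ (s + t) * (Q + 1)) + B * (X ^ (s + t) * (Q + 1) +
            24 * 40 ^ (t + 1) * (X ^ (s + t) * (Q + 1))) := by
          refine add_le_add ?_ (mul_le_mul_of_nonneg_left (add_le_add f2 f4) hB0)
          nlinarith
      _ = C2 * (X ^ (s + t) * (Q + 1)) := by rw [hC2]; ring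
  refine e1.trans ?_
  have e2 : X ^ (s + t) ≤ 5 ^ (s + t) * l ^ (s + t) := by
    rw [← mul_pow]
    exact pow_le_pow_left₀ (by linarith) hl2 _
  have e3 : 0 ≤ X ^ (s + t) := by positivity
  calc C2 * (X ^ (s + t) * (Q + 1))
      ≤ C2 * ((5 ^ (s + t) * l ^ (s + t)) * (C1 * (1 + |Real.log l|))) := by
        refine mul_le_mul_of_nonneg_left ?_ hC20.le
        exact mul_le_mul e2 hQ1 (by linarith) (by positivity)
    _ = C2 * 5 ^ (s + t) * C1 * l ^ (s + t) * (1 + |Real.log l|) := by ring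

/-- The sharp form, for pairwise coprime bases. -/
theorem loglog_bound (s t : ℕ) (b : Fin s → ℕ) (hb : ∀ i, 2 ≤ b i)
    (hco : Pairwise (fun i j => Nat.Coprime (b i) (b j))) :
    ∃ C : ℝ, 0 < C ∧ ∀ N : ℕ, N.Prime → (∀ i, Nat.Coprime (b i) N) →
      ∃ g : Fin t → ℕ, (∀ j, 1 ≤ g j ∧ g j ≤ N - 1) ∧
        discrepancy N (hybridPoint N b g)
          ≤ C * (Real.log N) ^ (s + t) * (1 + |Real.log (Real.log N)|) / N := by
  classical
  obtain ⟨C, hC0, hC⟩ := bnd_le s t b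
  refine ⟨C, hC0, ?_⟩
  intro N hNp hcop
  have : Fact N.Prime := ⟨hNp⟩
  have hN0 : (0 : ℝ) < N := by exact_mod_cast hNp.pos
  set Q := Nat.clog 2 (4 * 5 ^ (t + 1) * (Nat.log 2 N + 2) ^ (s + t + 1)) with hQ
  have hQ1 : 4 * (5 * ((Nat.log 2 N + 1 : ℕ) : ℝ)) ^ (t + 1) * ((Nat.log 2 N + 2 : ℕ) : ℝ) ^ s
      ≤ 2 ^ Q := by
    have h1 : 4 * 5 ^ (t + 1) * (Nat.log 2 N + 2) ^ (s + t + 1) ≤ 2 ^ Q :=
      Nat.le_pow_clog (by norm_num) _
    have h2 : 4 * (5 * (Nat.log 2 N + 1)) ^ (t + 1) * (Nat.log 2 N + 2) ^ s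
        ≤ 4 * 5 ^ (t + 1) * (Nat.log 2 N + 2) ^ (s + t + 1) := by
      have h3 : (Nat.log 2 N + 1) ^ (t + 1) ≤ (Nat.log 2 N + 2) ^ (t + 1) :=
        Nat.pow_le_pow_left (by omega) _
      calc 4 * (5 * (Nat.log 2 N + 1)) ^ (t + 1) * (Nat.log 2 N + 2) ^ s
          = 4 * 5 ^ (t + 1) * ((Nat.log 2 N + 1) ^ (t + 1) * (Nat.log 2 N + 2) ^ s) := by
            rw [mul_pow]; ring
        _ ≤ 4 * 5 ^ (t + 1) * ((Nat.log 2 N + 2) ^ (t + 1) * (Nat.log 2 N + 2) ^ s) :=
            Nat.mul_le_mul_left _ (Nat.mul_le_mul_right _ h3)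
        _ = 4 * 5 ^ (t + 1) * (Nat.log 2 N + 2) ^ (s + t + 1) := by
            rw [← pow_add]
            congr 2
            ring
    exact_mod_cast h2.trans h1
  obtain ⟨g, hg1, hg2⟩ := Pool.Agent.Helper3.Halton.main_bound b hb hco hcop Q hQ1
  refine ⟨g, fun j => ⟨(hg1 j).1, ?_⟩, ?_⟩
  · have := (hg1 j).2
    omega
  unfold discrepancy
  apply csSup_le
  · exact ⟨_, 0, 0, fun i => by simp, rfl⟩
  rintro r ⟨u, v, huv, rfl⟩
  have h1 := hg2 (u (Sum.inl ())) (v (Sum.inl ())) (fun i => u (Sum.inr (Sum.inl i)))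
    (fun i => v (Sum.inr (Sum.inl i))) (fun j => u (Sum.inr (Sum.inr j)))
    (fun j => v (Sum.inr (Sum.inr j))) (huv _) (fun i => huv _) (fun j => huv _)
  have h2 : ∏ i, (v i - u i) = (v (Sum.inl ()) - u (Sum.inl ())) *
      ((∏ i, (v (Sum.inr (Sum.inl i)) - u (Sum.inr (Sum.inl i)))) *
        ∏ j, (v (Sum.inr (Sum.inr j)) - u (Sum.inr (Sum.inr j)))) := by
    rw [Fintype.prod_sum_type, Fintype.prod_sum_type, Fintype.prod_unique]
  have h3 : (boxCount N (hybridPoint N b g) u v : ℝ)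
      = (((range N).filter (fun n : ℕ => (u (Sum.inl ()) ≤ (n : ℝ) / N ∧ (n : ℝ) / N < v (Sum.inl ())) ∧
            (∀ i, u (Sum.inr (Sum.inl i)) ≤ Pool.Agent.Helper3.Halton.radInv (b i) n ∧
              Pool.Agent.Helper3.Halton.radInv (b i) n < v (Sum.inr (Sum.inl i))) ∧
            (∀ j, u (Sum.inr (Sum.inr j)) ≤ Int.fract ((n : ℝ) * g j / N) ∧
              Int.fract ((n : ℝ) * g j / N) < v (Sum.inr (Sum.inr j))))).card : ℝ) := by
    unfold boxCount
    congr 2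
    ext n
    simp only [mem_filter]
    constructor
    · rintro ⟨hn, h⟩
      exact ⟨hn, h (Sum.inl ()), fun i => h (Sum.inr (Sum.inl i)),
        fun j => h (Sum.inr (Sum.inr j))⟩
    · rintro ⟨hn, h4, h5, h6⟩
      refine ⟨hn, ?_⟩
      rintro (o | i | j)
      · exact h4
      · exact h5 i
      · exact h6 j
  rw [h2, h3]
  refine h1.trans ?_
  refine div_le_div_of_nonneg_right ?_ hN0.le
  exact hC N hNp.two_le

/-- **Main theorem.** Both the bound asked for in the question (first part, for every `ε > 0`)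
and the sharper bound with `(log N)^(s+t) (1 + |log log N|)` (second part) hold. -/
theorem result (s t : ℕ) (b : Fin s → ℕ) (hb : ∀ i, (b i).Prime) (hinj : Function.Injective b) :
    (∀ ε : ℝ, 0 < ε → ∃ C : ℝ, ∀ N : ℕ, N.Prime → (∀ i, N ≠ b i) →
      ∃ g : Fin t → ℕ, (∀ j, 1 ≤ g j ∧ g j ≤ N - 1) ∧
        discrepancy N (hybridPoint N b g) ≤ C * (Real.log N) ^ ((s : ℝ) + t + ε) / N) ∧
    (∃ C : ℝ, ∀ N : ℕ, N.Prime → (∀ i, N ≠ b i) →
      ∃ g : Fin t → ℕ, (∀ j, 1 ≤ g j ∧ g j ≤ N - 1) ∧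
        discrepancy N (hybridPoint N b g)
          ≤ C * (Real.log N) ^ (s + t) * (1 + |Real.log (Real.log N)|) / N) := by
  have hco : Pairwise (fun i j => Nat.Coprime (b i) (b j)) := fun i j hij =>
    (Nat.coprime_primes (hb i) (hb j)).mpr (fun h => hij (hinj h))
  obtain ⟨C, hC0, hC⟩ := loglog_bound s t b (fun i => (hb i).two_le) hco
  refine ⟨?_, ?_⟩
  · intro ε hε
    refine ⟨C * (2 * 2 ^ ε + 1 / ε), ?_⟩
    intro N hNp hN
    obtain ⟨g, hg, hD⟩ := hC N hNp (fun i => (Nat.coprime_primes (hb i) hNp).mpr (hN i).symm)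
    refine ⟨g, hg, hD.trans ?_⟩
    have hN0 : (0 : ℝ) < N := by exact_mod_cast hNp.pos
    refine div_le_div_of_nonneg_right ?_ hN0.le
    obtain ⟨hl1, -⟩ := log_bounds hNp.two_le
    set l := Real.log N with hl
    have hl0 : 0 < l := by linarith
    have e1 : l ^ ((s : ℝ) + t + ε) = l ^ (s + t) * l ^ ε := by
      rw [Real.rpow_add hl0, ← Nat.cast_add, Real.rpow_natCast]
    rw [e1]
    have h2e : (1 : ℝ) ≤ 2 ^ ε * l ^ ε := by
      rw [← Real.mul_rpow (by norm_num) hl0.le]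
      exact Real.one_le_rpow (by linarith) hε.le
    have e2 : |Real.log l| ≤ 2 ^ ε * l ^ ε + (1 / ε) * l ^ ε := by
      have hp : 0 ≤ l ^ ε := Real.rpow_nonneg hl0.le _
      have hp2 : 0 ≤ (1 / ε) * l ^ ε := by positivity
      rcases le_or_gt 1 l with h | h
      · rw [abs_of_nonneg (Real.log_nonneg h)]
        have := Real.log_le_rpow_div hl0.le hε
        have h3 : l ^ ε / ε = (1 / ε) * l ^ ε := by ring
        rw [h3] at this
        linarith
      · rw [abs_of_nonpos (Real.log_nonpos hl0.le h.le)]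
        have h3 : -Real.log l ≤ 1 := by
          rw [← Real.log_inv]
          have h4 : l⁻¹ ≤ 2 := by
            rw [inv_le_comm₀ hl0 (by norm_num)]
            linarith
          calc Real.log l⁻¹ ≤ Real.log 2 := Real.log_le_log (by positivity) h4
            _ ≤ 1 := by linarith [Real.log_two_lt_d9]
        linarith
    have e3 : 1 + |Real.log l| ≤ (2 * 2 ^ ε + 1 / ε) * l ^ ε := by
      calc 1 + |Real.log l| ≤ 2 ^ ε * l ^ ε + (2 ^ ε * l ^ ε + (1 / ε) * l ^ ε) :=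
            add_le_add h2e e2
        _ = (2 * 2 ^ ε + 1 / ε) * l ^ ε := by ring
    calc C * l ^ (s + t) * (1 + |Real.log l|)
        ≤ C * l ^ (s + t) * ((2 * 2 ^ ε + 1 / ε) * l ^ ε) := by
          refine mul_le_mul_of_nonneg_left e3 (by positivity)
      _ = C * (2 * 2 ^ ε + 1 / ε) * (l ^ (s + t) * l ^ ε) := by ring
  · refine ⟨C, fun N hNp hN => ?_⟩
    exact hC N hNp (fun i => (Nat.coprime_primes (hb i) hNp).mpr (hN i).symm)

end Pool.Agent.Results.MP_dc06b6_nt.HybridPointSets
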